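import Pool.Agent.U922.MV.D

/-! # Blocks of a polynomial phase: moments over the coefficients, supremum over the lower-order terms -/

set_option autoImplicit false

open Finset MeasureTheory

namespace Pool.Agent.U922.XP

open Pool.Agent.U922.MV
open Pool.Agent.W928.MW (e e_add e_norm e_sub_re e_cont e_lip)
open Pool.Agent.TH181.MW (tup e_sum e_zero)

/-- block sum -/
noncomputable def bs (k m M a : ℕ) (θ : Fin k → ℝ) (c : Fin m → ℝ) : ℂ :=
  ∑ n ∈ Icc 1 M, e (lo k θ ((a + n : ℕ) : ℝ) + lo m c n)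

/-- power sums of the translated tuple -/
def hz (s k a : ℕ) (z : Fin s → ℕ) : Fin k → ℤ := fun j => ∑ i, ((a : ℤ) + z i) ^ ((j : ℕ) + 1)

noncomputable def bp (s k m M a : ℕ) (v : Fin m → ℕ) (θ : Fin k → ℝ) : ℂ :=
  ∑ z ∈ pv s m M v, e (∑ j, θ j * (hz s k a z j : ℝ))

noncomputable def BQ (s k m M a : ℕ) (θ : Fin k → ℝ) : ℝ := ∑ v ∈ VV s m M, ‖bp s k m M a v θ‖ ^ 2

theorem bs_pow (s k m M a : ℕ) (θ : Fin k → ℝ) (c : Fin m → ℝ) :
    bs k m M a θ c ^ s = ∑ v ∈ VV s m M, e (∑ j, c j * v j) * bp s k m M a v θ := by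
  have h1 : bs k m M a θ c ^ s = ∑ z ∈ tup s M, e (∑ j, c j * (pw s m z j : ℝ)) * e (∑ j, θ j * (hz s k a z j : ℝ)) := by
    unfold bs tup
    rw [Finset.sum_pow']
    apply Finset.sum_congr rfl
    intro z _
    rw [← e_sum, ← e_add]
    congr 1
    unfold lo pw hz
    rw [Finset.sum_add_distrib, add_comm]
    congr 1
    · rw [Finset.sum_comm]
      refine Finset.sum_congr rfl fun j _ => ?_
      push_cast
      rw [Finset.mul_sum]
    · rw [Finset.sum_comm]
      refine Finset.sum_congr rfl fun j _ => ?_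
      push_cast
      rw [Finset.mul_sum]
  rw [h1, ← Finset.sum_fiberwise_of_maps_to (s := tup s M) (t := VV s m M)
    (g := fun z : Fin s → ℕ => pw s m z) (fun z hz => pw_mem s m M z hz)]
  apply Finset.sum_congr rfl
  intro v _
  unfold bp pv
  rw [Finset.mul_sum]
  apply Finset.sum_congr rfl
  intro z hz
  rw [Finset.mem_filter] at hz
  rw [hz.2]

theorem sup_bs (s k m M a : ℕ) (θ : Fin k → ℝ) (c : Fin m → ℝ) :
    ‖bs k m M a θ c‖ ^ (2 * s) ≤ ((VV s m M).card : ℝ) * BQ s k m M a θ := by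
  have h1 : ‖bs k m M a θ c‖ ^ (2 * s) = ‖bs k m M a θ c ^ s‖ ^ 2 := by
    rw [norm_pow, ← pow_mul, mul_comm]
  rw [h1, bs_pow]
  have h2 : ‖∑ v ∈ VV s m M, e (∑ j, c j * v j) * bp s k m M a v θ‖ ≤ ∑ v ∈ VV s m M, ‖bp s k m M a v θ‖ := by
    refine (norm_sum_le _ _).trans (le_of_eq ?_)
    apply Finset.sum_congr rfl
    intro v _
    rw [norm_mul, e_norm, one_mul]
  have h3 := sq_sum_le_card_mul_sum_sq (s := VV s m M) (f := fun v => ‖bp s k m M a v θ‖)
  refine le_trans ?_ h3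
  exact pow_le_pow_left₀ (norm_nonneg _) h2 2

theorem e_conj (x : ℝ) : (starRingEnd ℂ) (e x) = e (-x) := by
  unfold e
  rw [← Complex.exp_conj]
  congr 1
  simp only [map_mul, Complex.conj_ofReal, Complex.conj_I, map_ofNat]
  push_cast
  ring

/-- the uniform measure on the box -/
noncomputable def box (k : ℕ) : Measure (Fin k → ℝ) :=
  Measure.pi (fun _ : Fin k => volume.restrict (Set.Ioc (0 : ℝ) 1))

instance (k : ℕ) : IsFiniteMeasure (box k) := by
  unfold box; infer_instance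

theorem int_e1 (h : ℤ) : ∫ t, e (t * h) ∂(volume.restrict (Set.Ioc (0 : ℝ) 1)) = if h = 0 then 1 else 0 := by
  rw [← intervalIntegral.integral_of_le zero_le_one]
  split_ifs with h0
  · subst h0
    simp [e_zero]
  · have hc : 2 * (Real.pi : ℂ) * Complex.I * (h : ℂ) ≠ 0 := by
      have : (h : ℂ) ≠ 0 := by exact_mod_cast h0
      simp [Real.pi_ne_zero, this]
    have h1 : ∀ t : ℝ, e (t * h) = Complex.exp ((2 * (Real.pi : ℂ) * Complex.I * (h : ℂ)) * t) := by
      intro t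
      unfold e
      congr 1
      push_cast
      ring
    simp_rw [h1]
    rw [integral_exp_mul_complex hc]
    have h2 : Complex.exp ((2 * (Real.pi : ℂ) * Complex.I * (h : ℂ)) * ((1 : ℝ) : ℂ)) = 1 := by
      have h3 := Complex.exp_int_mul_two_pi_mul_I h
      rw [← h3]
      congr 1
      push_cast
      ring
    rw [h2]
    simp

theorem int_e (k : ℕ) (H : Fin k → ℤ) : ∫ θ, e (∑ j, θ j * (H j : ℝ)) ∂(box k) = if H = 0 then 1 else 0 := by
  have h1 : ∀ θ : Fin k → ℝ, e (∑ j, θ j * (H j : ℝ)) = ∏ j, (fun (j : Fin k) (t : ℝ) => e (t * (H j : ℝ))) j (θ j) := by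
    intro θ
    rw [e_sum]
  have h2 : ∫ θ, e (∑ j, θ j * (H j : ℝ)) ∂(box k) =
      ∏ j : Fin k, ∫ t, e (t * (H j : ℝ)) ∂(volume.restrict (Set.Ioc (0 : ℝ) 1)) := by
    rw [show (fun θ : Fin k → ℝ => e (∑ j, θ j * (H j : ℝ))) =
      fun θ => ∏ j, (fun (j : Fin k) (t : ℝ) => e (t * (H j : ℝ))) j (θ j) from funext h1]
    exact integral_fintype_prod_eq_prod (μ := fun _ : Fin k => volume.restrict (Set.Ioc (0 : ℝ) 1))
      (fun (j : Fin k) (t : ℝ) => e (t * (H j : ℝ)))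
  rw [h2]
  simp_rw [int_e1]
  rw [Finset.prod_ite_zero]
  have : (∀ i ∈ (Finset.univ : Finset (Fin k)), H i = 0) ↔ H = 0 := by
    constructor
    · intro h; funext i; exact h i (Finset.mem_univ _)
    · intro h i _; rw [h]; rfl
  simp only [this, Finset.prod_const_one]

theorem bp_cont (s k m M a : ℕ) (v : Fin m → ℕ) : Continuous (bp s k m M a v) := by
  unfold bp
  refine continuous_finsetSum _ (fun z _ => ?_)
  exact e_cont.comp (by fun_prop)

theorem BQ_cont (s k m M a : ℕ) : Continuous (BQ s k m M a) := by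
  unfold BQ
  refine continuous_finsetSum _ (fun v _ => ?_)
  exact ((bp_cont s k m M a v).norm).pow 2

theorem BQ_nonneg (s k m M a : ℕ) (θ : Fin k → ℝ) : 0 ≤ BQ s k m M a θ := by
  unfold BQ
  positivity

theorem int_e_able (k : ℕ) (H : Fin k → ℝ) : Integrable (fun θ : Fin k → ℝ => e (∑ j, θ j * H j)) (box k) := by
  refine Integrable.of_bound (C := 1) ?_ (Filter.Eventually.of_forall fun θ => (e_norm _).le)
  exact (e_cont.comp (by fun_prop)).aestronglyMeasurable

/-- the number of pairs of tuples with the same power sums of the tuple and of the translated tuple -/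
def cnt (s k m M a : ℕ) : ℕ := ∑ v ∈ VV s m M,
  (((pv s m M v) ×ˢ (pv s m M v)).filter (fun z => hz s k a z.1 = hz s k a z.2)).card

theorem bp_sq (s k m M a : ℕ) (v : Fin m → ℕ) (θ : Fin k → ℝ) : ((‖bp s k m M a v θ‖ ^ 2 : ℝ) : ℂ) =
    ∑ z ∈ (pv s m M v) ×ˢ (pv s m M v), e (∑ j, θ j * (((hz s k a z.1 - hz s k a z.2) j : ℤ) : ℝ)) := by
  have h1 : ((‖bp s k m M a v θ‖ ^ 2 : ℝ) : ℂ) = bp s k m M a v θ * (starRingEnd ℂ) (bp s k m M a v θ) := by
    rw [Complex.mul_conj, Complex.normSq_eq_norm_sq]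
  rw [h1]
  unfold bp
  rw [map_sum, Finset.sum_mul_sum, ← Finset.sum_product']
  apply Finset.sum_congr rfl
  intro z _
  rw [e_conj, ← e_add]
  congr 1
  rw [← Finset.sum_neg_distrib, ← Finset.sum_add_distrib]
  refine Finset.sum_congr rfl fun j _ => ?_
  rw [Pi.sub_apply]
  push_cast
  ring

theorem int_BQ (s k m M a : ℕ) : ∫ θ, BQ s k m M a θ ∂(box k) = (cnt s k m M a : ℝ) := by
  have h1 : ((∫ θ, BQ s k m M a θ ∂(box k) : ℝ) : ℂ) = (cnt s k m M a : ℂ) := by
    rw [← integral_complex_ofReal]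
    have h2 : ∀ θ : Fin k → ℝ, ((BQ s k m M a θ : ℝ) : ℂ) = ∑ v ∈ VV s m M,
        ∑ z ∈ (pv s m M v) ×ˢ (pv s m M v), e (∑ j, θ j * (((hz s k a z.1 - hz s k a z.2) j : ℤ) : ℝ)) := by
      intro θ
      unfold BQ
      rw [Complex.ofReal_sum]
      exact Finset.sum_congr rfl fun v _ => bp_sq s k m M a v θ
    have h3 : (fun θ : Fin k → ℝ => ((BQ s k m M a θ : ℝ) : ℂ)) = fun θ => ∑ v ∈ VV s m M,
        ∑ z ∈ (pv s m M v) ×ˢ (pv s m M v), e (∑ j, θ j * (((hz s k a z.1 - hz s k a z.2) j : ℤ) : ℝ)) := funext h2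
    have h4 : ∫ θ, ((BQ s k m M a θ : ℝ) : ℂ) ∂(box k) = ∑ v ∈ VV s m M,
        ∑ z ∈ (pv s m M v) ×ˢ (pv s m M v), (if hz s k a z.1 - hz s k a z.2 = 0 then (1 : ℂ) else 0) := by
      rw [h3, integral_finsetSum _ fun v _ => integrable_finsetSum _ fun z _ => int_e_able k _]
      refine Finset.sum_congr rfl fun v _ => ?_
      rw [integral_finsetSum _ fun z _ => int_e_able k _]
      exact Finset.sum_congr rfl fun z _ => int_e k _
    refine (h4.trans ?_)
    unfold cnt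
    push_cast
    refine Finset.sum_congr rfl fun v _ => ?_
    rw [Finset.card_filter]
    push_cast
    refine Finset.sum_congr rfl fun z _ => ?_
    simp only [sub_eq_zero]
  exact_mod_cast h1

theorem cnt_le (s k m M a : ℕ) (hk : 1 ≤ k) : cnt s k m M a ≤ JV s (k - 1) k M := by
  unfold cnt JV
  rw [← Finset.card_sigma]
  refine Finset.card_le_card_of_injOn (fun z : (_ : Fin m → ℕ) × ((Fin s → ℕ) × (Fin s → ℕ)) => z.2) ?_ ?_
  · rintro ⟨v, z, w⟩ hz
    simp only [Finset.coe_sigma, Set.mem_sigma_iff, Finset.mem_coe, Finset.mem_filter, Finset.mem_product, pv] at hz ⊢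
    obtain ⟨-, ⟨⟨hz1, -⟩, hw1, -⟩, h3⟩ := hz
    have h4 : ∀ j, 1 ≤ j → j ≤ k → ∑ i, ((a : ℤ) + 1 * (z i : ℤ)) ^ j = ∑ i, ((a : ℤ) + 1 * (w i : ℤ)) ^ j := by
      intro j hj1 hjk
      have h5 := congrFun h3 ⟨j - 1, by omega⟩
      unfold hz at h5
      simp only at h5
      have e2 : j - 1 + 1 = j := by omega
      rw [e2] at h5
      simpa using h5
    have h6 := ex_low (m := k) (s := s) (c := (a : ℤ)) (q := 1) one_ne_zero h4
    refine ⟨⟨hz1, hw1⟩, fun j => ?_, ?_⟩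
    · have h7 := sub_eq_zero.1 (h6 ((j : ℕ) + 1) (by omega))
      exact_mod_cast h7
    · have h7 := sub_eq_zero.1 (h6 k le_rfl)
      exact_mod_cast h7
  · rintro ⟨v, z, w⟩ h1 ⟨v', z', w'⟩ h2 h3
    simp only [Finset.coe_sigma, Set.mem_sigma_iff, Finset.mem_coe, Finset.mem_filter, Finset.mem_product, pv] at h1 h2
    simp only at h3
    have h4 : z = z' := congrArg Prod.fst h3
    have h5 : v = v' := by rw [← h1.2.1.1.2, ← h2.2.1.1.2, h4]
    subst h5
    rw [h3]

theorem lint_BQ (s k m M a : ℕ) (hk : 1 ≤ k) :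
    ∫⁻ θ, ENNReal.ofReal (BQ s k m M a θ) ∂(box k) ≤ ENNReal.ofReal (JV s (k - 1) k M : ℝ) := by
  have hint : Integrable (BQ s k m M a) (box k) := by
    refine Integrable.of_bound (C := ((VV s m M).card : ℝ) * ((tup s M).card : ℝ) ^ 2)
      (BQ_cont s k m M a).aestronglyMeasurable (Filter.Eventually.of_forall fun θ => ?_)
    rw [Real.norm_of_nonneg (BQ_nonneg s k m M a θ)]
    unfold BQ
    rw [← nsmul_eq_mul]
    refine Finset.sum_le_card_nsmul _ _ _ fun v _ => ?_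
    apply pow_le_pow_left₀ (norm_nonneg _)
    unfold bp
    refine (norm_sum_le _ _).trans ?_
    simp only [e_norm]
    rw [Finset.sum_const, nsmul_eq_mul, mul_one]
    exact_mod_cast Finset.card_le_card (Finset.filter_subset _ _)
  rw [← ofReal_integral_eq_lintegral_ofReal hint (Filter.Eventually.of_forall (BQ_nonneg s k m M a)), int_BQ]
  apply ENNReal.ofReal_le_ofReal
  exact_mod_cast cnt_le s k m M a hk

end Pool.Agent.U922.XP
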