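import Pool.Agent.U922.XP.A

/-! # Almost every polynomial: all blocks at once -/

set_option autoImplicit false

open Finset MeasureTheory

namespace Pool.Agent.U922.XP

open Pool.Agent.U922.MV
open Pool.Agent.helper132_dc (sk)
open Pool.Agent.TH181.MW (tup)

theorem ae_fin (k m : ℕ) (hk : 1 ≤ k) : ∀ᵐ θ ∂(box k), ∃ K : ℝ, 1 ≤ K ∧ ∀ a M : ℕ, 1 ≤ M → M ≤ a →
    BQ (sk k) k m M a θ ≤ K * (a : ℝ) ^ (sk k + 4) := by
  obtain ⟨C, hC, hJ⟩ := jv_bound (k - 1) k (by omega) 1 one_pos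
  have e1 : k - 1 + 1 = k := by omega
  rw [e1] at hJ
  obtain ⟨s, hs⟩ : ∃ s, s = sk k := ⟨_, rfl⟩
  rw [← hs] at hJ ⊢
  set F : ℕ → (Fin k → ℝ) → ENNReal := fun a θ => ∑ M ∈ Icc 1 a,
    ENNReal.ofReal (BQ s k m M a θ) * ENNReal.ofReal (1 / (a : ℝ) ^ (s + 4)) with hF
  have hm1 : ∀ a M : ℕ, Measurable (fun θ => ENNReal.ofReal (BQ s k m M a θ)) := fun a M =>
    (BQ_cont s k m M a).measurable.ennreal_ofReal
  have hmF : ∀ a, Measurable (F a) := by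
    intro a
    rw [hF]
    exact Finset.measurable_sum _ fun M _ => (hm1 a M).mul_const _
  have hFa : ∀ a : ℕ, ∫⁻ θ, F a θ ∂(box k) ≤ ENNReal.ofReal (C * (1 / (a : ℝ) ^ 2)) := by
    intro a
    rcases Nat.eq_zero_or_pos a with h0 | h0
    · subst h0
      rw [hF]
      simp
    have ha : (0 : ℝ) < a := by exact_mod_cast h0
    have h1 : ∀ M ∈ Icc 1 a, ∫⁻ θ, ENNReal.ofReal (BQ s k m M a θ) * ENNReal.ofReal (1 / (a : ℝ) ^ (s + 4)) ∂(box k) ≤
        ENNReal.ofReal (C * (1 / (a : ℝ) ^ 3)) := by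
      intro M hM
      rw [Finset.mem_Icc] at hM
      rw [lintegral_mul_const _ (hm1 a M)]
      refine (mul_le_mul_left (lint_BQ s k m M a hk) _).trans ?_
      rw [← ENNReal.ofReal_mul (by positivity)]
      apply ENNReal.ofReal_le_ofReal
      have h2 := hJ M hM.1
      have h3 : (M : ℝ) ^ ((s : ℝ) + 1) ≤ (a : ℝ) ^ (s + 1) := by
        have : (M : ℝ) ^ ((s : ℝ) + 1) = (M : ℝ) ^ (s + 1) := by
          rw [← Real.rpow_natCast]; push_cast; rfl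
        rw [this]
        exact pow_le_pow_left₀ (by positivity) (by exact_mod_cast hM.2) _
      have h4 : (JV s (k - 1) k M : ℝ) ≤ C * (a : ℝ) ^ (s + 1) :=
        h2.trans (mul_le_mul_of_nonneg_left h3 (by linarith))
      refine (mul_le_mul_of_nonneg_right h4 (by positivity)).trans (le_of_eq ?_)
      have h5 : (a : ℝ) ^ (s + 4) = (a : ℝ) ^ (s + 1) * (a : ℝ) ^ 3 := by rw [← pow_add]
      rw [h5]
      field_simp
    have h2 : ∫⁻ θ, F a θ ∂(box k) = ∑ M ∈ Icc 1 a,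
        ∫⁻ θ, ENNReal.ofReal (BQ s k m M a θ) * ENNReal.ofReal (1 / (a : ℝ) ^ (s + 4)) ∂(box k) := by
      rw [hF]
      exact lintegral_finsetSum _ fun M _ => (hm1 a M).mul_const _
    rw [h2]
    refine (Finset.sum_le_sum h1).trans ?_
    rw [Finset.sum_const, Nat.card_Icc, Nat.add_sub_cancel, nsmul_eq_mul, ← ENNReal.ofReal_natCast,
      ← ENNReal.ofReal_mul (by positivity)]
    apply ENNReal.ofReal_le_ofReal
    refine le_of_eq ?_
    have h5 : (a : ℝ) ^ 3 = a * (a : ℝ) ^ 2 := by ring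
    rw [h5]
    field_simp
  have hfin : ∫⁻ θ, ∑' a, F a θ ∂(box k) ≠ ⊤ := by
    rw [lintegral_tsum fun a => (hmF a).aemeasurable]
    refine ne_top_of_le_ne_top ?_ (ENNReal.tsum_le_tsum hFa)
    exact Summable.tsum_ofReal_ne_top ((Real.summable_one_div_nat_pow.2 one_lt_two).mul_left C)
  have hae := ae_lt_top (Measurable.tsum hmF) hfin
  filter_upwards [hae] with θ hθ
  refine ⟨max 1 (∑' a, F a θ).toReal, le_max_left _ _, fun a M hM1 hMa => ?_⟩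
  have ha : (0 : ℝ) < a := by
    have : 0 < a := by omega
    exact_mod_cast this
  have h1 : ENNReal.ofReal (BQ s k m M a θ) * ENNReal.ofReal (1 / (a : ℝ) ^ (s + 4)) ≤ ∑' a, F a θ := by
    refine le_trans ?_ (ENNReal.le_tsum a)
    rw [hF]
    exact Finset.single_le_sum (f := fun M => ENNReal.ofReal (BQ s k m M a θ) * ENNReal.ofReal (1 / (a : ℝ) ^ (s + 4)))
      (fun _ _ => zero_le) (Finset.mem_Icc.2 ⟨hM1, hMa⟩)
  rw [← ENNReal.ofReal_mul (BQ_nonneg _ _ _ _ _ _)] at h1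
  have h2 := (ENNReal.ofReal_le_iff_le_toReal hθ.ne).1 h1
  have h3 := h2.trans (le_max_right 1 _)
  have h4 : (0 : ℝ) < (a : ℝ) ^ (s + 4) := by positivity
  have h5 : BQ s k m M a θ = (BQ s k m M a θ * (1 / (a : ℝ) ^ (s + 4))) * (a : ℝ) ^ (s + 4) := by
    field_simp
  rw [h5]
  exact mul_le_mul_of_nonneg_right h3 h4.le

/-- the parameters with a uniform bound for all blocks -/
def Good (k m : ℕ) (β : ℝ) (θ : Fin k → ℝ) : Prop :=
  ∃ K : ℝ, 1 ≤ K ∧ ∀ a M : ℕ, 1 ≤ a → M ≤ a → ∀ c : Fin m → ℝ, ‖bs k m M a θ c‖ ≤ K * (a : ℝ) ^ β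

theorem ae_good (k m : ℕ) (hk : 1 ≤ k) (hs : 1 ≤ sk k) (β : ℝ)
    (hβ : ((m * (m + 1) / 2 : ℕ) : ℝ) + sk k + 4 ≤ 2 * sk k * β) : ∀ᵐ θ ∂(box k), Good k m β θ := by
  filter_upwards [ae_fin k m hk] with θ hθ
  obtain ⟨K, hK, h⟩ := hθ
  obtain ⟨s, hs'⟩ : ∃ s, s = sk k := ⟨_, rfl⟩
  rw [← hs'] at h hβ hs
  have hs0 : (1 : ℝ) ≤ (s : ℝ) + 1 := by
    have : (0 : ℝ) ≤ s := by positivity
    linarith
  have hK' : (1 : ℝ) ≤ ((s : ℝ) + 1) ^ m * K := by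
    have := one_le_pow₀ hs0 (n := m)
    nlinarith
  refine ⟨((s : ℝ) + 1) ^ m * K, hK', fun a M ha hM c => ?_⟩
  have ha1 : (1 : ℝ) ≤ a := by exact_mod_cast ha
  have ha0 : (0 : ℝ) < a := by linarith
  rcases Nat.eq_zero_or_pos M with h0 | h0
  · subst h0
    unfold bs
    simp only [Finset.Icc_eq_empty_of_lt (Nat.zero_lt_one), Finset.sum_empty, norm_zero]
    positivity
  · have h1 := sup_bs s k m M a θ c
    have h2 := h a M h0 hM
    have h3 := card_VV s m M h0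
    have h4 : (M : ℝ) ^ (m * (m + 1) / 2) ≤ (a : ℝ) ^ (m * (m + 1) / 2) :=
      pow_le_pow_left₀ (by positivity) (by exact_mod_cast hM) _
    have h5 : ‖bs k m M a θ c‖ ^ (2 * s) ≤ (((s : ℝ) + 1) ^ m * (a : ℝ) ^ (m * (m + 1) / 2)) * (K * (a : ℝ) ^ (s + 4)) := by
      refine h1.trans (mul_le_mul (h3.trans (mul_le_mul_of_nonneg_left h4 (by positivity))) h2
        (BQ_nonneg _ _ _ _ _ _) (by positivity))
    have h6 : (a : ℝ) ^ (m * (m + 1) / 2) * (a : ℝ) ^ (s + 4) ≤ ((a : ℝ) ^ β) ^ (2 * s) := by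
      rw [← pow_add, ← Real.rpow_natCast, ← Real.rpow_natCast ((a : ℝ) ^ β), ← Real.rpow_mul ha0.le]
      apply Real.rpow_le_rpow_of_exponent_le ha1
      push_cast
      linarith
    have h7 : ((s : ℝ) + 1) ^ m * K ≤ (((s : ℝ) + 1) ^ m * K) ^ (2 * s) := le_self_pow₀ hK' (by omega)
    have h8 : ‖bs k m M a θ c‖ ^ (2 * s) ≤ (((s : ℝ) + 1) ^ m * K * (a : ℝ) ^ β) ^ (2 * s) := by
      rw [mul_pow]
      refine h5.trans ?_
      calc (((s : ℝ) + 1) ^ m * (a : ℝ) ^ (m * (m + 1) / 2)) * (K * (a : ℝ) ^ (s + 4))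
          = (((s : ℝ) + 1) ^ m * K) * ((a : ℝ) ^ (m * (m + 1) / 2) * (a : ℝ) ^ (s + 4)) := by ring
        _ ≤ _ := mul_le_mul h7 h6 (by positivity) (by positivity)
    exact le_of_pow_le_pow_left₀ (by omega) (by positivity) h8

end Pool.Agent.U922.XP
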