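import Pool.Agent.U922.XP.C

/-! # From the unit box to all polynomials; the choice of the parameters -/

set_option autoImplicit false

open Finset MeasureTheory

namespace Pool.Agent.U922.XP

open Pool.Agent.U922.MV
open Pool.Agent.W928.MW (e e_add e_norm)
open Pool.Agent.helper132_dc (sk)

theorem ae_of_box (k : ℕ) (S : Set (Fin k → ℝ))
    (hper : ∀ (θ : Fin k → ℝ) (z : Fin k → ℤ), θ ∈ S → (θ + fun j => (z j : ℝ)) ∈ S)
    (h : ∀ᵐ θ ∂(box k), θ ∈ S) : ∀ᵐ θ : Fin k → ℝ, θ ∈ S := by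
  set Q : Set (Fin k → ℝ) := Set.univ.pi (fun _ => Set.Ioc (0 : ℝ) 1) with hQ
  have hbox : box k = (volume : Measure (Fin k → ℝ)).restrict Q := by
    unfold box
    rw [volume_pi, hQ, Measure.restrict_pi_pi]
  rw [hbox, ae_restrict_iff' (MeasurableSet.univ_pi fun _ => measurableSet_Ioc)] at h
  have hB : (volume : Measure (Fin k → ℝ)) (Sᶜ ∩ Q) = 0 := by
    refine measure_mono_null ?_ (ae_iff.1 h)
    intro θ hθ
    simp only [Set.mem_ofPred_eq, Classical.not_imp]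
    exact ⟨hθ.2, hθ.1⟩
  rw [ae_iff]
  refine measure_mono_null (t := ⋃ z : Fin k → ℤ, (fun θ : Fin k → ℝ => θ + fun j => (z j : ℝ)) ⁻¹' (Sᶜ ∩ Q)) ?_ ?_
  · intro θ hθ
    rw [Set.mem_iUnion]
    refine ⟨fun j => -(⌈θ j⌉ - 1), ?_, ?_⟩
    · intro hmem
      apply hθ
      have h1 := hper _ (fun j => ⌈θ j⌉ - 1) hmem
      convert h1 using 1
      funext j
      simp only [Pi.add_apply]
      push_cast
      ring
    · rw [hQ, Set.mem_univ_pi]
      intro j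
      simp only [Pi.add_apply]
      have h1 := Int.le_ceil (θ j)
      have h2 := Int.ceil_lt_add_one (θ j)
      push_cast
      constructor
      · linarith
      · linarith
  · rw [measure_iUnion_null_iff]
    intro z
    rw [measure_preimage_add_right]
    exact hB

theorem e_int (n : ℤ) : e (n : ℝ) = 1 := by
  unfold e
  have h3 := Complex.exp_int_mul_two_pi_mul_I n
  rw [← h3]
  congr 1
  push_cast
  ring

theorem e_lo_per (k : ℕ) (θ : Fin k → ℝ) (z : Fin k → ℤ) (x : ℝ) (n : ℕ) :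
    e (x + lo k (θ + fun j => (z j : ℝ)) n) = e (x + lo k θ n) := by
  have h1 : lo k (θ + fun j => (z j : ℝ)) n = lo k θ n + ((∑ j, z j * (n : ℤ) ^ ((j : ℕ) + 1) : ℤ) : ℝ) := by
    unfold lo
    push_cast
    rw [← Finset.sum_add_distrib]
    refine Finset.sum_congr rfl fun j _ => ?_
    rw [Pi.add_apply]
    ring
  rw [h1, ← add_assoc, e_add, e_int, mul_one]

/-- the choice of the degree -/
theorem params (ε : ℝ) (hε : 0 < ε) (hε2 : ε ≤ 1 / 2) (k : ℕ) (hk : 3 / ε ^ 3 ≤ k) :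
    ∃ m : ℕ, m = ⌊1 / ε ^ 2 + 2 / ε⌋₊ ∧ 1 / (2 * ε) + 1 ≤ ε / 2 * (m + 1) ∧
      ((m * (m + 1) / 2 : ℕ) : ℝ) + sk k + 4 ≤ 2 * sk k * (1 / 2 + ε / 2) := by
  obtain ⟨m, hm⟩ : ∃ m : ℕ, m = ⌊1 / ε ^ 2 + 2 / ε⌋₊ := ⟨_, rfl⟩
  have hp : 0 ≤ 1 / ε ^ 2 + 2 / ε := by positivity
  have h1 : (m : ℝ) ≤ 1 / ε ^ 2 + 2 / ε := by rw [hm]; exact Nat.floor_le hp
  have h2 : 1 / ε ^ 2 + 2 / ε < m + 1 := by rw [hm]; exact Nat.lt_floor_add_one _
  refine ⟨m, hm, ?_, ?_⟩
  · have h3 : ε / 2 * (1 / ε ^ 2 + 2 / ε) = 1 / (2 * ε) + 1 := by field_simp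
    rw [← h3]
    exact mul_le_mul_of_nonneg_left h2.le (by positivity)
  · have hu : 2 ≤ 1 / ε := by rw [le_div_iff₀ hε]; linarith
    obtain ⟨u, hu'⟩ : ∃ u : ℝ, u = 1 / ε := ⟨_, rfl⟩
    rw [← hu'] at hu
    have hεu : ε = 1 / u := by rw [hu']; field_simp
    have hu0 : 0 < u := by linarith
    have h4 : (m : ℝ) ≤ 2 * u ^ 2 := by
      refine h1.trans ?_
      have : 1 / ε ^ 2 + 2 / ε = u ^ 2 + 2 * u := by rw [hεu]; field_simp
      rw [this]
      nlinarith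
    have h5 : 3 * u ^ 3 ≤ (k : ℝ) := by
      refine le_trans (le_of_eq ?_) hk
      rw [hεu]
      field_simp
    have h6 : 2 * (sk k : ℝ) = (k : ℝ) * (k + 1) := by
      have h7 : 2 * sk k = k * (k + 1) := by
        unfold sk
        exact Nat.mul_div_cancel' (Nat.even_mul_succ_self k).two_dvd
      exact_mod_cast h7
    have h7 : ((m * (m + 1) / 2 : ℕ) : ℝ) ≤ (m : ℝ) * (m + 1) / 2 := by
      have := Nat.cast_div_le (α := ℝ) (m := m * (m + 1)) (n := 2)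
      push_cast at this
      exact this
    have h8 : (m : ℝ) * (m + 1) ≤ 2 * u ^ 2 * (2 * u ^ 2 + 1) :=
      mul_le_mul h4 (by linarith) (by positivity) (by positivity)
    have h9 : 2 * u ^ 2 * (2 * u ^ 2 + 1) + 8 ≤ 5 * u ^ 4 := by
      have : 4 ≤ u ^ 2 := by nlinarith
      nlinarith [sq_nonneg (u ^ 2 - 4)]
    have h10 : 5 * u ^ 4 * u ≤ (k : ℝ) * (k + 1) := by
      have h11 : 9 * u ^ 6 ≤ (k : ℝ) * k := by
        have := mul_le_mul h5 h5 (by positivity) (by positivity)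
        calc 9 * u ^ 6 = 3 * u ^ 3 * (3 * u ^ 3) := by ring
          _ ≤ _ := this
      have h12 : 5 * u ^ 4 * u ≤ 9 * u ^ 6 := by
        have : 9 * u ^ 6 - 5 * u ^ 4 * u = u ^ 5 * (9 * u - 5) := by ring
        have h13 : 0 ≤ u ^ 5 * (9 * u - 5) := mul_nonneg (by positivity) (by linarith)
        linarith
      have h13 : (0 : ℝ) ≤ k := by positivity
      nlinarith
    have h11 : 5 * u ^ 4 ≤ (k : ℝ) * (k + 1) * ε := by
      rw [hεu, mul_one_div, le_div_iff₀ hu0]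
      exact h10
    have h12 : 2 * (sk k : ℝ) * (1 / 2 + ε / 2) = (sk k : ℝ) + (k : ℝ) * (k + 1) * ε / 2 := by
      rw [← h6]; ring
    rw [h12]
    linarith

end Pool.Agent.U922.XP
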